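import Mathlib
import Pool.Agent.TH497.PW.IntFlow
import Pool.Agent.TH362.FP.Pos
import Pool.Agent.Y335.FL.Main

set_option autoImplicit false

/-!
# The smallest counterexample to the 5-flow conjecture has girth at least twelve (MP_974d84_co)

Every multigraph `G` has a set `F` of edges such that `G / F` has girth at least twelve (every
`Z_5`-flow of `G` which is not zero outside `F` has at least twelve nonzero values outside `F`) and
such that, if `G / F` has a nowhere-zero `Z_5`-flow (there is a `Z_5`-flow of `G` without zeros
outside `F`), then `G` has a nowhere-zero 5-flow and the characteristic polynomial of the bond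
matroid of `G` is positive at all integers `q ≥ 5`.

In particular a bridgeless graph without a nowhere-zero 5-flow all of whose proper bridgeless
contractions have nowhere-zero 5-flows has girth at least twelve (`minimal` below), and the 5-flow
conjecture is equivalent to its restriction to graphs of girth at least twelve.

Proof.  Let `C` be a circuit of a graph `H` and `k ≤ 11` its length, and suppose that `H / C` has a
nowhere-zero `Z_5`-flow but `H` has none.  For the boundary values `b` (nonzero, with sum zero) at
the vertices of `C` let `F(b)` be the number of nowhere-zero `Z_5`-functions on `H - E(C)` with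
boundary `b`.  Then `F(b) = 0` for all `b` whose partial sums miss an element of `Z_5`.  By
deletion and contraction `F` is a combination of the indicator functions of the events that all
blocks of a set partition of the `k` vertices have sum zero.  For `k = 5, ..., 11` the kernel
evaluates explicit integer vectors `c` on the boundary values which are orthogonal to all these
indicator functions (all set partitions, 678570 for `k = 11`) and positive at all `b` whose partial
sums take all five values.  Hence `F = 0`; boundary values with zeros are treated in the same way,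
with a shorter circuit.  So circuits with at most eleven edges can be contracted, and a set `F`
which is maximal among the sets for which a flow of `G / F` yields a flow of `G` has the properties.
-/

namespace Pool.Agent.Results.MP_974d84_co.GirthTwelve

open Pool.Agent.TH497.PW

variable {V E : Type}

/-- Kirchhoff's law. -/
def IsFlow {R : Type} [AddCommMonoid R] [DecidableEq V] [Fintype E] (src dst : E → V)
    (f : E → R) : Prop :=
  ∀ v : V, ∑ e ∈ Finset.univ.filter (fun e => src e = v), f e
    = ∑ e ∈ Finset.univ.filter (fun e => dst e = v), f e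

/-- The number of the components of the graph with the vertices `V` and the edges `A`. -/
noncomputable def components (src dst : E → V) (A : Finset E) : ℕ :=
  Nat.card (SimpleGraph.fromRel
    (fun u v : V => ∃ e ∈ A, src e = u ∧ dst e = v)).ConnectedComponent

/-- The rank of `A` in the cycle matroid of the graph. -/
noncomputable def cycleRank [Fintype V] (src dst : E → V) (A : Finset E) : ℕ :=
  Fintype.card V - components src dst A

/-- The rank of `A` in the bond matroid of the graph (the dual of the cycle matroid). -/
noncomputable def bondRank [Fintype V] [Fintype E] [DecidableEq E] (src dst : E → V)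
    (A : Finset E) : ℕ :=
  A.card + cycleRank src dst Aᶜ - cycleRank src dst Finset.univ

/-- The characteristic polynomial of the bond matroid at the integer `x`. -/
noncomputable def bondCharPoly [Fintype V] [Fintype E] [DecidableEq E] (src dst : E → V)
    (x : ℤ) : ℤ :=
  ∑ A : Finset E, (-1) ^ A.card * x ^ (bondRank src dst Finset.univ - bondRank src dst A)

theorem isFlow_iff {R : Type} [CommRing R] [DecidableEq V] [Fintype E] (src dst : E → V)
    (f : E → R) : IsFlow src dst f ↔
      ∀ v, ∑ e, f e * ((if src e = v then 1 else 0) - (if dst e = v then 1 else 0)) = 0 := by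
  unfold IsFlow
  refine forall_congr' fun v => ?_
  rw [Finset.sum_filter, Finset.sum_filter, ← sub_eq_zero, ← Finset.sum_sub_distrib]
  have : ∀ e, (if src e = v then f e else 0) - (if dst e = v then f e else 0)
      = f e * ((if src e = v then 1 else 0) - (if dst e = v then 1 else 0)) := by
    intro e
    by_cases h1 : src e = v <;> by_cases h2 : dst e = v <;> simp [h1, h2]
  rw [Finset.sum_congr rfl (fun e _ => this e)]

theorem nzf [Fintype V] [DecidableEq V] [Fintype E] [DecidableEq E] (src dst : E → V)
    (h : Pool.Agent.TH676.Z.FlowOn src dst ∅ ∅) : NZF src dst := by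
  obtain ⟨f, h1, _, h3⟩ := h
  refine ⟨f, fun e => h3 e (Finset.notMem_empty _) (Finset.notMem_empty _), fun x => ?_⟩
  rw [← h1 x]
  unfold Pool.Agent.TH676.Z.bd
  refine Finset.sum_congr rfl fun e _ => ?_
  unfold ic
  by_cases h4 : src e = x <;> by_cases h5 : dst e = x <;> simp [h4, h5]

theorem charPoly_pos [Fintype V] [DecidableEq V] [Fintype E] [DecidableEq E] (src dst : E → V)
    (f : E → ℤ) (h1 : IsFlow src dst f) (h2 : ∀ e, 1 ≤ |f e| ∧ |f e| ≤ 4) (q : ℕ) (hq : 5 ≤ q) :
    0 < bondCharPoly src dst q :=
  Pool.Agent.TH362.FP.chr_pos src dst f h2 h1 q hq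

theorem bd_iff [Fintype V] [DecidableEq V] [Fintype E] [DecidableEq E] (src dst : E → V)
    (f : E → ZMod 5) : IsFlow src dst f ↔ ∀ v, Pool.Agent.TH676.Z.bd src dst f v = 0 := by
  rw [isFlow_iff]
  refine forall_congr' fun v => ?_
  unfold Pool.Agent.TH676.Z.bd
  rw [Finset.sum_congr rfl]
  intro e _
  by_cases h1 : src e = v <;> by_cases h2 : dst e = v <;> simp [h1, h2]

theorem result :
    ∀ (V E : Type) [Fintype V] [DecidableEq V] [Fintype E] [DecidableEq E] (src dst : E → V),
      ∃ F : Finset E,
        (∀ z : E → ZMod 5, IsFlow src dst z → (∃ e, e ∉ F ∧ z e ≠ 0) →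
          12 ≤ (Finset.univ.filter (fun e => e ∉ F ∧ z e ≠ 0)).card) ∧
        ((∃ f : E → ZMod 5, IsFlow src dst f ∧ ∀ e, e ∉ F → f e ≠ 0) →
          (∃ f : E → ℤ, IsFlow src dst f ∧ ∀ e, 1 ≤ |f e| ∧ |f e| ≤ 4) ∧
          ∀ q : ℕ, 5 ≤ q → 0 < bondCharPoly src dst q) := by
  classical
  intro V E _ _ _ _ src dst
  obtain ⟨F, hF, hmax⟩ := Finset.exists_max_image
    ((Finset.univ : Finset (Finset E)).filter (fun F =>
      Pool.Agent.TH676.Z.FlowOn src dst ∅ F → Pool.Agent.TH676.Z.FlowOn src dst ∅ ∅))
    (fun F => F.card) ⟨∅, Finset.mem_filter.mpr ⟨Finset.mem_univ _, id⟩⟩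
  rw [Finset.mem_filter] at hF
  refine ⟨F, ?_, ?_⟩
  · intro z hz hne
    by_contra hcon
    push Not at hcon
    obtain ⟨e0, he0, hz0⟩ := hne
    set S := Finset.univ.filter (fun e => e ∉ F ∧ z e ≠ 0) with hS
    have hmem : ∀ e, e ∈ S ↔ e ∉ F ∧ z e ≠ 0 := fun e => by simp [hS]
    have htr := Pool.Agent.Y335.FL.trail_all V E src dst F S z ((bd_iff src dst z).mp hz)
      (fun e he => ((hmem e).mp he).2)
      (fun e h1 h2 => by
        by_contra h3
        exact h2 ((hmem e).mpr ⟨h1, h3⟩)) (by omega)
    have h1 := hmax (F ∪ S) (Finset.mem_filter.mpr ⟨Finset.mem_univ _, fun h => hF.2 (htr h)⟩)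
    have h2 : F ⊂ F ∪ S := by
      refine ⟨Finset.subset_union_left, fun h => ?_⟩
      exact he0 (h (Finset.mem_union_right _ ((hmem e0).mpr ⟨he0, hz0⟩)))
    have h3 := Finset.card_lt_card h2
    omega
  · rintro ⟨f, hf, hf0⟩
    have hfl := hF.2 ⟨f, (bd_iff src dst f).mp hf, fun e he => absurd he (Finset.notMem_empty _),
      fun e _ he => hf0 e he⟩
    obtain ⟨G, hG, hG0⟩ := int_flow src dst (nzf src dst hfl)
    have hG1 := (isFlow_iff src dst G).mpr hG0
    exact ⟨⟨G, hG1, hG⟩, fun q hq => charPoly_pos src dst G hG1 hG q hq⟩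

/-- Consequence: a graph without a nowhere-zero 5-flow such that for all nonempty sets `F` of edges
the contraction `G / F` has a nowhere-zero `Z_5`-flow has girth at least twelve: every cycle (the
support of a nonzero flow with values in `{0, 1, -1}`) has at least twelve edges. -/
theorem minimal :
    ∀ (V E : Type) [Fintype V] [DecidableEq V] [Fintype E] [DecidableEq E] (src dst : E → V),
      (¬ ∃ f : E → ℤ, IsFlow src dst f ∧ ∀ e, 1 ≤ |f e| ∧ |f e| ≤ 4) →
      (∀ F : Finset E, F.Nonempty → ∃ f : E → ZMod 5, IsFlow src dst f ∧ ∀ e, e ∉ F → f e ≠ 0) →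
      ∀ z : E → ℤ, IsFlow src dst z → (∀ e, z e = 0 ∨ z e = 1 ∨ z e = -1) → (∃ e, z e ≠ 0) →
        12 ≤ (Finset.univ.filter (fun e => z e ≠ 0)).card := by
  intro V E _ _ _ _ src dst hno hmin z hz hz1 hz0
  obtain ⟨F, h1, h2⟩ := result V E src dst
  have hFe : F = ∅ := by
    by_contra hne
    exact hno (h2 (hmin F (Finset.nonempty_iff_ne_empty.mpr hne))).1
  subst hFe
  have h10 : (1 : ZMod 5) ≠ 0 := by decide
  have hcast : ∀ e, ((z e : ℤ) : ZMod 5) ≠ 0 ↔ z e ≠ 0 := by
    intro e
    rcases hz1 e with h | h | h <;> simp [h, h10]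
  have h3 := h1 (fun e => ((z e : ℤ) : ZMod 5)) (by
    intro v
    have h4 := congrArg (fun t : ℤ => (t : ZMod 5)) (hz v)
    simpa using h4) (by
    obtain ⟨e, he⟩ := hz0
    exact ⟨e, Finset.notMem_empty e, (hcast e).mpr he⟩)
  refine h3.trans (Finset.card_le_card ?_)
  intro e he
  rw [Finset.mem_filter] at he ⊢
  exact ⟨he.1, (hcast e).mp he.2.2⟩

end Pool.Agent.Results.MP_974d84_co.GirthTwelve
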