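import Mathlib
import Pool.Agent.TH497.PW.IntFlow
import Pool.Agent.TH362.FP.Pos
import Pool.Agent.Y335.FL.Main

set_option autoImplicit false

/-!
# Euler genus at most 33 and at most 21 apex vertices (MP_974d84_co)

Let `G` be a bridgeless multigraph and let `S` be a set of `k` vertices such that `G - S` satisfies
MacLane's condition with defect `h`: there is a family of elements of the cycle space over `GF(2)`
of `G - S` such that every edge is in at most two of them and the codimension of their span in the
cycle space is at most `h`.  For an embedding of `G - S` in a surface of Euler genus `h` the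
boundaries of the faces are such a family.  If `3 k + 2 h ≤ 66` and `k ≤ 21`, then `G` has a
nowhere-zero 5-flow, and the characteristic polynomial of its bond matroid is positive at all
integers `q ≥ 5`.  For `k = 0` these are the graphs of Euler genus at most 33; for `h = 0` the graphs
which become planar by the deletion of at most 21 vertices.  The degrees (also those of the vertices
of `S`), the connectivity and the order are arbitrary.

Proof.  The class of these graphs is closed under minors.  Let `G` be a minimal counterexample.

(1) `G` has no circuit with at most eleven edges.  Let `C` be such a circuit and `k` its length.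
For the boundary values `b` (nonzero, with sum zero) at the vertices of `C` let `F(b)` be the number
of nowhere-zero `Z_5`-functions on `G - E(C)` with boundary `b`.  If `G` has no flow then
`F(b) = 0` for all `b` whose partial sums miss an element of `Z_5`.  On the other hand `F` is a
combination of the indicator functions of the events that all blocks of a partition of the `k`
vertices have sum zero.  For `k = 5, ..., 11` the kernel evaluates explicit integer vectors `c` on
the boundary values which are orthogonal to all these indicator functions (all set partitions, 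
678570 for `k = 11`) and positive at all `b` whose partial sums take all five values.  Hence
`F = 0`, so that `G / C` has no flow.

(2) So nonzero elements of the cycle space have at least twelve edges and the family of faces,
completed by the sum of all of them, gives `12 (c - h + 1) ≤ 2 m'` for the dimension
`c ≥ m' - n' + 1` of the cycle space of `G - S`, where `m'` and `n'` are the numbers of edges and
vertices.

(3) Degrees: `3 n' ≤ 2 m' + D`, where `D` is the sum of the degrees of the vertices of `S`.

(4) If `s` has degree `D_s` then there are at least `62 D_s` edges at distance at most four from the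
neighbours of `s` which are not at `s` (balls in a graph with girth at least twelve), so that
`63 D_s ≤ m' + D`, and `m' + D ≥ 189`.  These inequalities contradict each other.
-/

namespace Pool.Agent.Results.MP_974d84_co.SurfacesAndApices

open Pool.Agent.TH497.PW

variable {V E : Type}

/-- The edges with exactly one end in `Y`. -/
def boundary [DecidableEq V] [Fintype E] (src dst : E → V) (Y : Finset V) : Finset E :=
  Finset.univ.filter (fun e => ¬ (src e ∈ Y ↔ dst e ∈ Y))

/-- Kirchhoff's law. -/
def IsFlow [DecidableEq V] [Fintype E] (src dst : E → V) (f : E → ℤ) : Prop :=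
  ∀ v : V, ∑ e ∈ Finset.univ.filter (fun e => src e = v), f e
    = ∑ e ∈ Finset.univ.filter (fun e => dst e = v), f e

/-- The cycle space over `GF(2)` of the graph `G - S`: the functions on the edges which are zero on
the edges with an end in `S` and which satisfy Kirchhoff's law modulo 2. -/
def cycleSpace [DecidableEq V] [Fintype E] (src dst : E → V) (S : Finset V) :
    Submodule (ZMod 2) (E → ZMod 2) where
  carrier := {x | (∀ e, (src e ∈ S ∨ dst e ∈ S) → x e = 0) ∧
    ∀ v : V, ∑ e ∈ Finset.univ.filter (fun e => src e = v), x e
      + ∑ e ∈ Finset.univ.filter (fun e => dst e = v), x e = 0}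
  add_mem' := by
    rintro a b ⟨h1, h2⟩ ⟨h3, h4⟩
    refine ⟨fun e he => by rw [Pi.add_apply, h1 e he, h3 e he, add_zero], fun v => ?_⟩
    simp only [Pi.add_apply, Finset.sum_add_distrib]
    have := congrArg₂ (· + ·) (h2 v) (h4 v)
    simp only [add_zero] at this
    rw [← this]
    ring
  zero_mem' := ⟨fun _ _ => rfl, fun v => by simp⟩
  smul_mem' := by
    rintro c a ⟨h1, h2⟩
    refine ⟨fun e he => by rw [Pi.smul_apply, h1 e he, smul_zero], fun v => ?_⟩
    simp only [Pi.smul_apply, smul_eq_mul, ← Finset.mul_sum]
    rw [← mul_add, h2 v, mul_zero]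

/-- MacLane's condition with defect `h` for the graph `G - S`: there is a finite family of elements
of the cycle space of `G - S` such that every edge is in at most two of them and the dimension of
the cycle space is at most the dimension of their span plus `h`. -/
def MacLaneDefect [DecidableEq V] [Fintype E] (src dst : E → V) (S : Finset V) (h : ℕ) : Prop :=
  ∃ (k : ℕ) (K : Fin k → E → ZMod 2), (∀ i, K i ∈ cycleSpace src dst S) ∧
    (∀ e, (Finset.univ.filter (fun i => K i e ≠ 0)).card ≤ 2) ∧
    Module.finrank (ZMod 2) (cycleSpace src dst S) ≤
      Module.finrank (ZMod 2) (Submodule.span (ZMod 2) (Set.range K)) + h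

/-- The number of the components of the graph with the vertices `V` and the edges `A`. -/
noncomputable def components (src dst : E → V) (A : Finset E) : ℕ :=
  Nat.card (SimpleGraph.fromRel
    (fun u v : V => ∃ e ∈ A, src e = u ∧ dst e = v)).ConnectedComponent

/-- The rank of `A` in the cycle matroid of the graph. -/
noncomputable def cycleRank [Fintype V] (src dst : E → V) (A : Finset E) : ℕ :=
  Fintype.card V - components src dst A

/-- The rank of `A` in the bond matroid of the graph (the dual of the cycle matroid). -/
noncomputable def bondRank [Fintype V] [Fintype E] [DecidableEq E] (src dst : E → V)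
    (A : Finset E) : ℕ :=
  A.card + cycleRank src dst Aᶜ - cycleRank src dst Finset.univ

/-- The characteristic polynomial of the bond matroid at the integer `x`. -/
noncomputable def bondCharPoly [Fintype V] [Fintype E] [DecidableEq E] (src dst : E → V)
    (x : ℤ) : ℤ :=
  ∑ A : Finset E, (-1) ^ A.card * x ^ (bondRank src dst Finset.univ - bondRank src dst A)

theorem isFlow_iff [DecidableEq V] [Fintype E] (src dst : E → V) (f : E → ℤ) :
    IsFlow src dst f ↔
      ∀ v, ∑ e, f e * ((if src e = v then 1 else 0) - (if dst e = v then 1 else 0)) = 0 := by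
  unfold IsFlow
  refine forall_congr' fun v => ?_
  rw [Finset.sum_filter, Finset.sum_filter, ← sub_eq_zero, ← Finset.sum_sub_distrib]
  have : ∀ e, (if src e = v then f e else 0) - (if dst e = v then f e else 0)
      = f e * ((if src e = v then 1 else 0) - (if dst e = v then 1 else 0)) := by
    intro e
    by_cases h1 : src e = v <;> by_cases h2 : dst e = v <;> simp [h1, h2]
  rw [Finset.sum_congr rfl (fun e _ => this e)]

theorem nzf [Fintype V] [DecidableEq V] [Fintype E] [DecidableEq E] (src dst : E → V)
    (h : Pool.Agent.TH676.Z.FlowOn src dst ∅ ∅) : NZF src dst := by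
  obtain ⟨f, h1, _, h3⟩ := h
  refine ⟨f, fun e => h3 e (Finset.notMem_empty _) (Finset.notMem_empty _), fun x => ?_⟩
  rw [← h1 x]
  unfold Pool.Agent.TH676.Z.bd
  refine Finset.sum_congr rfl fun e _ => ?_
  unfold ic
  by_cases h4 : src e = x <;> by_cases h5 : dst e = x <;> simp [h4, h5]

theorem cycleSpace_eq [Fintype V] [DecidableEq V] [Fintype E] [DecidableEq E] (src dst : E → V)
    (S : Finset V) : cycleSpace src dst S =
      Pool.Agent.TH676.Z.ZF src dst
        (Finset.univ.filter (fun e => src e ∉ S ∧ dst e ∉ S)) := by
  ext x
  have h2 : ∀ v, Pool.Agent.TH676.Z.bd2 src dst x v =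
      ∑ e ∈ Finset.univ.filter (fun e => src e = v), x e
        + ∑ e ∈ Finset.univ.filter (fun e => dst e = v), x e := by
    intro v
    unfold Pool.Agent.TH676.Z.bd2
    rw [Finset.sum_add_distrib, Finset.sum_filter, Finset.sum_filter]
  constructor
  · rintro ⟨h, h'⟩
    refine ⟨fun e he => h e ?_, fun v => by rw [h2 v]; exact h' v⟩
    by_contra hc
    push Not at hc
    exact he (Finset.mem_filter.mpr ⟨Finset.mem_univ _, hc⟩)
  · rintro ⟨h, h'⟩
    refine ⟨fun e he => h e ?_, fun v => by rw [← h2 v]; exact h' v⟩
    intro hc
    rcases he with he | he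
    · exact (Finset.mem_filter.mp hc).2.1 he
    · exact (Finset.mem_filter.mp hc).2.2 he

theorem charPoly_pos [Fintype V] [DecidableEq V] [Fintype E] [DecidableEq E] (src dst : E → V)
    (f : E → ℤ) (h1 : IsFlow src dst f) (h2 : ∀ e, 1 ≤ |f e| ∧ |f e| ≤ 4) (q : ℕ) (hq : 5 ≤ q) :
    0 < bondCharPoly src dst q :=
  Pool.Agent.TH362.FP.chr_pos src dst f h2 h1 q hq

/-- deletion of the edges in `D` -/
theorem mac_sdiff [Fintype V] [DecidableEq V] [Fintype E] [DecidableEq E] {src dst : E → V}
    {F : Finset E} {h : ℕ} (D : Finset E) (hM : Pool.Agent.TH676.Z.Mac h src dst F) :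
    Pool.Agent.TH676.Z.Mac h src dst (F \ D) := by
  induction D using Finset.induction_on with
  | empty => rw [Finset.sdiff_empty]; exact hM
  | insert e D _ ih =>
    rw [Finset.sdiff_insert]
    exact Pool.Agent.TH676.Z.macDel V E src dst (F \ D) h e ih

theorem result :
    ∀ (V E : Type) [Fintype V] [DecidableEq V] [Fintype E] [DecidableEq E]
      (src dst : E → V) (S : Finset V) (h : ℕ), 3 * S.card + 2 * h ≤ 66 → S.card ≤ 21 →
      MacLaneDefect src dst S h →
      (∀ Y : Finset V, (boundary src dst Y).card ≠ 1) →
      (∃ f : E → ℤ, IsFlow src dst f ∧ ∀ e, 1 ≤ |f e| ∧ |f e| ≤ 4) ∧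
      ∀ q : ℕ, 5 ≤ q → 0 < bondCharPoly src dst q := by
  intro V E _ _ _ _ src dst S h hkh hk hM hb
  have hM1 : Pool.Agent.TH676.Z.Mac h src dst
      (Finset.univ.filter (fun e => src e ∉ S ∧ dst e ∉ S)) := by
    obtain ⟨k, K, h1, h2, h3⟩ := hM
    rw [cycleSpace_eq] at h3
    exact ⟨k, K, fun i => by rw [← cycleSpace_eq]; exact h1 i, h2, h3⟩
  have hM2 : Pool.Agent.TH676.Z.Mac h src dst (Pool.Agent.TH676.Z.ES src dst S) := by
    have h3 := mac_sdiff (Finset.univ.filter (fun e => src e = dst e)) hM1
    have h4 : Pool.Agent.TH676.Z.ES src dst S =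
        (Finset.univ.filter (fun e => src e ∉ S ∧ dst e ∉ S)) \
          (Finset.univ.filter (fun e => src e = dst e)) := by
      ext e
      unfold Pool.Agent.TH676.Z.ES
      simp only [Finset.mem_filter, Finset.mem_univ, true_and, Finset.mem_sdiff]
      tauto
    rw [h4]
    exact h3
  have hbr : Pool.Agent.TH676.Z.Br src dst ∅ ∅ :=
    fun Y _ => by rw [Finset.sdiff_empty]; exact hb Y
  have hfl : Pool.Agent.TH676.Z.FlowOn src dst ∅ ∅ :=
    Pool.Agent.Y335.FL.surf_all V E src dst S.card h hkh hk ⟨S, le_rfl, hM2⟩ hbr
  obtain ⟨F, hF, hF0⟩ := int_flow src dst (nzf src dst hfl)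
  have hF1 := (isFlow_iff src dst F).mpr hF0
  exact ⟨⟨F, hF1, hF⟩, fun q hq => charPoly_pos src dst F hF1 hF q hq⟩

end Pool.Agent.Results.MP_974d84_co.SurfacesAndApices
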