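import Mathlib
import Pool.Agent.TH497.PW.IntFlow
import Pool.Agent.TH497.TW.Std
import Pool.Agent.TH362.FP.Pos
import Pool.Agent.Y335.FL.Main
import Pool.Agent.Y335.FL.Ahl
import Pool.Agent.Y335.FL.Ex17
import Pool.Agent.Y335.FL.Iso
import Pool.Agent.Y335.FL.Order
import Pool.Agent.Y335.FL.Tw

set_option autoImplicit false

/-!
# Nowhere-zero 5-flows in graphs of treewidth at most seventeen (MP_974d84_co)

Every bridgeless multigraph of treewidth at most `17` (hence every bridgeless multigraph of
branchwidth at most `12`) has a nowhere-zero 5-flow, and the characteristic polynomial of its bond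
matroid is positive at all integers `q ≥ 5`.  There is no condition on the degrees, on the
connectivity or on the number of vertices.

Proof.  The class of these graphs is closed under minors.  Let `G` be a minimal counterexample.

(1) `G` has no circuit with at most eleven edges, and all vertices have at least three neighbours.
Let `C` be a circuit and `k ≤ 11` its length.  For the boundary values `b` (nonzero, with sum zero)
at the vertices of `C` let `F(b)` be the number of nowhere-zero `Z_5`-functions on `G - E(C)` with
boundary `b`.  If `G` has no flow then `F(b) = 0` for all `b` whose partial sums miss an element of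
`Z_5`.  On the other hand `F` is a combination of the indicator functions of the events that all
blocks of a partition of the `k` vertices have sum zero.  For `k = 5, ..., 11` the kernel evaluates
explicit integer vectors `c` on the boundary values which are orthogonal to all these indicator
functions (all set partitions, 678570 for `k = 11`) and positive at all `b` whose partial sums take
all five values.  Hence `F = 0`, so that `G / C` has no flow.

(2) In a graph of girth at least twelve with degrees at least three every set `U` of 25 to 48
vertices has at least 19 outer neighbours: otherwise the graph on `U` and its at most 18 outer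
neighbours (without the vertices of degree at most one) has at most 66 vertices and too many edges
for girth twelve, by the Moore bound for irregular graphs (Alon, Hoory and Linial 2002, proved here
with logarithmic convexity for nonbacktracking walks).

(3) The vertices of `G` are eliminated along a tree decomposition with bags of at most 18 vertices.
All components of the eliminated part always have at most 24 vertices: a component which arises by
the elimination of a vertex has at most 17 outer neighbours, and if it had at least 25 vertices then
some union of it with pieces would have 25 to 48 vertices and at most 18 outer neighbours, against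
(2).  But the last component has no outer neighbours, and `G` has at least 126 vertices.
-/

namespace Pool.Agent.Results.MP_974d84_co.TreewidthSeventeen

open Pool.Agent.TH497.PW Pool.Agent.TH497.TW

variable {V E ι : Type}

/-- The edges with exactly one end in `X`. -/
def boundary [DecidableEq V] [Fintype E] (src dst : E → V) (X : Finset V) : Finset E :=
  Finset.univ.filter (fun e => ¬ (src e ∈ X ↔ dst e ∈ X))

/-- Kirchhoff's law. -/
def IsFlow [DecidableEq V] [Fintype E] (src dst : E → V) (f : E → ℤ) : Prop :=
  ∀ v : V, ∑ e ∈ Finset.univ.filter (fun e => src e = v), f e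
    = ∑ e ∈ Finset.univ.filter (fun e => dst e = v), f e

/-- The sets `X i`, for the nodes `i` of the graph `T`, are a tree decomposition of width at most
`w`: `T` is a tree, every edge has both ends in one of the sets, a vertex in `X i` and `X j` is in
`X k` for all `k` on the path of `T` from `i` to `j`, and the sets have at most `w + 1` elements. -/
structure IsTreeDecomposition [DecidableEq V] (src dst : E → V) (w : ℕ) (T : SimpleGraph ι)
    (X : ι → Finset V) : Prop where
  tree : T.IsTree
  edge : ∀ e, ∃ i, src e ∈ X i ∧ dst e ∈ X i
  path : ∀ (i j : ι) (p : T.Walk i j), p.IsPath → ∀ k ∈ p.support, X i ∩ X j ⊆ X k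
  width : ∀ i, (X i).card ≤ w + 1

/-- The number of the components of the graph with the vertices `V` and the edges `A`. -/
noncomputable def components (src dst : E → V) (A : Finset E) : ℕ :=
  Nat.card (SimpleGraph.fromRel
    (fun u v : V => ∃ e ∈ A, src e = u ∧ dst e = v)).ConnectedComponent

/-- The rank of `A` in the cycle matroid of the graph. -/
noncomputable def cycleRank [Fintype V] (src dst : E → V) (A : Finset E) : ℕ :=
  Fintype.card V - components src dst A

/-- The rank of `A` in the bond matroid of the graph (the dual of the cycle matroid). -/
noncomputable def bondRank [Fintype V] [Fintype E] [DecidableEq E] (src dst : E → V)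
    (A : Finset E) : ℕ :=
  A.card + cycleRank src dst Aᶜ - cycleRank src dst Finset.univ

/-- The characteristic polynomial of the bond matroid at the integer `x`. -/
noncomputable def bondCharPoly [Fintype V] [Fintype E] [DecidableEq E] (src dst : E → V)
    (x : ℤ) : ℤ :=
  ∑ A : Finset E, (-1) ^ A.card * x ^ (bondRank src dst Finset.univ - bondRank src dst A)

theorem isFlow_iff [DecidableEq V] [Fintype E] (src dst : E → V) (f : E → ℤ) :
    IsFlow src dst f ↔
      ∀ v, ∑ e, f e * ((if src e = v then 1 else 0) - (if dst e = v then 1 else 0)) = 0 := by
  unfold IsFlow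
  refine forall_congr' fun v => ?_
  rw [Finset.sum_filter, Finset.sum_filter, ← sub_eq_zero, ← Finset.sum_sub_distrib]
  have : ∀ e, (if src e = v then f e else 0) - (if dst e = v then f e else 0)
      = f e * ((if src e = v then 1 else 0) - (if dst e = v then 1 else 0)) := by
    intro e
    by_cases h1 : src e = v <;> by_cases h2 : dst e = v <;> simp [h1, h2]
  rw [Finset.sum_congr rfl (fun e _ => this e)]

theorem nzf [Fintype V] [DecidableEq V] [Fintype E] [DecidableEq E] (src dst : E → V)
    (h : Pool.Agent.TH676.Z.FlowOn src dst ∅ ∅) : NZF src dst := by
  obtain ⟨f, h1, _, h3⟩ := h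
  refine ⟨f, fun e => h3 e (Finset.notMem_empty _) (Finset.notMem_empty _), fun x => ?_⟩
  rw [← h1 x]
  unfold Pool.Agent.TH676.Z.bd
  refine Finset.sum_congr rfl fun e _ => ?_
  unfold ic
  by_cases h4 : src e = x <;> by_cases h5 : dst e = x <;> simp [h4, h5]

theorem charPoly_pos [Fintype V] [DecidableEq V] [Fintype E] [DecidableEq E] (src dst : E → V)
    (f : E → ℤ) (h1 : IsFlow src dst f) (h2 : ∀ e, 1 ≤ |f e| ∧ |f e| ≤ 4) (q : ℕ) (hq : 5 ≤ q) :
    0 < bondCharPoly src dst q :=
  Pool.Agent.TH362.FP.chr_pos src dst f h2 h1 q hq

open Pool.Agent.TH676.Z Pool.Agent.Y335.FL in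
/-- graphs with tree decompositions with bags of at most 18 vertices -/
theorem flowOn18 [Fintype V] [DecidableEq V] [Fintype E] [DecidableEq E] {src dst : E → V}
    (h : HasTD 18 src dst) (hb : Br src dst ∅ ∅) : FlowOn src dst ∅ ∅ := by
  by_contra hn
  obtain ⟨s, d, hs, hM⟩ := crit V E (HasTD 18) (Pool.Agent.TH676.Z.mc 18) src dst h hb hn
  obtain ⟨-, hT⟩ := gi_all V E s d hM
  have hG := girth_all V E s d hM
  obtain ⟨In, hB⟩ := bags hs
  have hno := tw (iso (ex17 ahl)) moore V (Adj s d) In
    (fun a b h => ⟨h.1.symm, h.2.imp fun e he => he.symm⟩) (fun a h => h.1 rfl) hG hT hB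
  refine hM.nf (flow_of_loops fun e => ?_)
  by_contra he
  exact hno (s e) (d e) ⟨he, e, Or.inl ⟨rfl, rfl⟩⟩

theorem result :
    ∀ (V E ι : Type) [Fintype V] [DecidableEq V] [Fintype E] [DecidableEq E] [Fintype ι]
      (src dst : E → V) (T : SimpleGraph ι) (X : ι → Finset V),
      IsTreeDecomposition src dst 17 T X →
      (∀ Y : Finset V, (boundary src dst Y).card ≠ 1) →
      (∃ f : E → ℤ, IsFlow src dst f ∧ ∀ e, 1 ≤ |f e| ∧ |f e| ≤ 4) ∧
      ∀ q : ℕ, 5 ≤ q → 0 < bondCharPoly src dst q := by
  intro V E ι _ _ _ _ _ src dst T X hX hb
  have hTD : HasTD 18 src dst := HasTD.of_tree hX.tree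
    (fun i j p hp k hk v hi hj => hX.path i j p hp k hk (Finset.mem_inter.mpr ⟨hi, hj⟩))
    hX.edge hX.width
  have hfl := flowOn18 hTD (fun Y _ => by rw [Finset.sdiff_empty]; exact hb Y)
  obtain ⟨F, hF, hF0⟩ := int_flow src dst (nzf src dst hfl)
  have hF1 := (isFlow_iff src dst F).mpr hF0
  exact ⟨⟨F, hF1, hF⟩, fun q hq => charPoly_pos src dst F hF1 hF q hq⟩

end Pool.Agent.Results.MP_974d84_co.TreewidthSeventeen
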